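import Pool.Agent.Run7.h770.PG.Main2
set_option autoImplicit false

/-!
Beilinson's conjecture for `K_2` of curves over number fields: polynomial growth of the rank of the
integral part of `K_2 ⊗ ℚ` of an elliptic curve with integral `j`-invariant in an explicit tower of
fields of torsion points, and free modules over group rings in it.
-/

namespace Pool.Agent.Results.MP_0a9c3b_nt.FreeGaloisModules

open WeierstrassCurve

open Pool.Agent.Run7.h770.IJ (crv jk j_crv exists_crv isElliptic_crv)

open Pool.Agent.W367.KT (K2 H2MZ)

open Pool.Agent.Run7.h770.PG (K2Q)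

open Pool.Agent.T6.H7.SX (cst Xf Yf)

open scoped TensorProduct

/-- The homomorphism `Γ` of the function field of the curve `W` over `L` is `g` on the constants
and fixes the coordinate functions `X` and `Y`. -/
def Induces {L : Type*} [Field L] (W : WeierstrassCurve L) (g : L →+* L)
    (Γ : W.toAffine.FunctionField →+* W.toAffine.FunctionField) : Prop :=
  (∀ c, Γ (cst W c) = cst W (g c)) ∧ Γ (Xf W) = Xf W ∧ Γ (Yf W) = Yf W

/-- There is an element `α` of the subspace `H` all of whose translates `S ^ j α` belong to `H` and
whose first `r` translates `S ^ j α`, `0 ≤ j < r`, are linearly independent over `ℚ`. -/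
def FreeOrbit {V : Type*} [AddCommGroup V] [Module ℚ V] (H : Submodule ℚ V) (S : V →ₗ[ℚ] V)
    (r : ℕ) : Prop :=
  ∃ α : V, (∀ j : ℕ, (S ^ j) α ∈ H) ∧ LinearIndependent ℚ (fun j : Fin r => (S ^ (j : ℕ)) α)

/-- Let `g` be an endomorphism of the field `L`, acting on the function field of the curve `W`
through the constants. The integral part `H2MZ` of `K_2 ⊗ ℚ` of the curve (the classes all of whose
tame symbols at discrete valuations of the function field vanish) contains an element whose
translates belong to it and whose first `r` translates are linearly independent. -/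
def FreeOver {L : Type*} [Field L] (W : WeierstrassCurve L) (g : L →+* L) (r : ℕ) : Prop :=
  ∃ Γ : W.toAffine.FunctionField →+* W.toAffine.FunctionField, Induces W g Γ ∧
    FreeOrbit (H2MZ W.toAffine.FunctionField) (K2Q Γ) r

/-- The `j`-invariant of `E` is an algebraic integer, or `E` has an integral parameter `k`: an
algebraic integer `k` with `(k⁴ - 16 k² + 16)³ = j k² (k² - 16)`, that is, such that `E` is over an
algebraic closure isomorphic to the (smooth) curve `x + 1/x + y + 1/y = k`. -/
def IntegralParameter {K : Type*} [Field K] (E : WeierstrassCurve K) [E.IsElliptic] : Prop :=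
  IsIntegral ℤ E.j ∨ ∃ k : AlgebraicClosure K, IsIntegral ℤ k ∧
    (k ^ 4 - 16 * k ^ 2 + 16) ^ 3 =
      algebraMap K (AlgebraicClosure K) E.j * (k ^ 2 * (k ^ 2 - 16))

/-- The finite extension `L` of `K` has degree at most `d`, the automorphism `γ` of the algebraic
closure restricts to an endomorphism `g` of `L` with `g ^ r = 1`, and the integral part of
`K_2 ⊗ ℚ` of the curve `E` over `L` contains an element whose first `r` translates by `g` are
linearly independent. -/
def FreeLevel {K : Type*} [Field K] (E : WeierstrassCurve K)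
    (γ : AlgebraicClosure K ≃ₐ[K] AlgebraicClosure K)
    (L : IntermediateField K (AlgebraicClosure K)) (d r : ℕ) : Prop :=
  FiniteDimensional K L ∧ Module.finrank K L ≤ d ∧
    ∃ g : L →+* L, (∀ x : L, ((g x : L) : AlgebraicClosure K) = γ x) ∧
      (∀ x ∈ L, (γ ^ r) x = x) ∧
      FreeOver (E.map (algebraMap K L)) g r

/-- Let `E` be an elliptic curve over a number field `K` whose `j`-invariant is an algebraic
integer, or, more generally, which has an integral parameter `k`. Then there are a number `c`, an
automorphism `γ` of an algebraic closure of `K` over `K` and an increasing sequence of finite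
extensions `L 0 ≤ L 1 ≤ ...` of `K`, stable under `γ`, such that for every `m`: the degree of `L m`
over `K` is at most `c * 16 ^ m`, the power `γ ^ (2 ^ m)` is the identity on `L m`, and the integral
part of `K_2 ⊗ ℚ` of the curve `E` over `L m` contains a free module of rank one over the group ring
`ℚ[⟨g⟩]`, where `g` (of order `2 ^ m`) is the restriction of `γ` to `L m`. In particular the
integral part has rank at least `2 ^ m`. -/
theorem result (K : Type*) [Field K] [NumberField K] (E : WeierstrassCurve K) [E.IsElliptic]
    (h : IntegralParameter E) :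
    ∃ (c : ℕ) (γ : AlgebraicClosure K ≃ₐ[K] AlgebraicClosure K)
      (L : ℕ → IntermediateField K (AlgebraicClosure K)), Monotone L ∧
        ∀ m, FreeLevel E γ (L m) (c * 16 ^ m) (2 ^ m) := by
  have key : ∀ {k : AlgebraicClosure K} (_ : k ≠ 0) (_ : k ^ 2 ≠ 16) (_ : IsIntegral ℤ k)
      (C : VariableChange (AlgebraicClosure K))
      (_ : C • E.map (algebraMap K (AlgebraicClosure K)) = crv k),
      ∃ (c : ℕ) (γ : AlgebraicClosure K ≃ₐ[K] AlgebraicClosure K)
      (L : ℕ → IntermediateField K (AlgebraicClosure K)), Monotone L ∧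
        ∀ m, FreeLevel E γ (L m) (c * 16 ^ m) (2 ^ m) := by
    intro k h0 h4 hi C hC
    obtain ⟨c, γ, L, h1, h2⟩ := Pool.Agent.Run7.h770.PG.grow_eqv E h0 h4 hi C hC
    refine ⟨c, γ, L, h1, fun m => ?_⟩
    obtain ⟨a1, a2, g, a3, a4, Γ, b1, b2, b3, b4⟩ := h2 m
    exact ⟨a1, a2, g, a3, fun x hx => a4 ⟨x, hx⟩, Γ, ⟨b1, b2, b3⟩, b4⟩
  rcases h with hj | ⟨k, hi, hk⟩
  · obtain ⟨k, h0, h4, hjk, C, hC⟩ := exists_crv (E.map (algebraMap K (AlgebraicClosure K)))
    refine key h0 h4 ?_ C hC
    refine Pool.Agent.Run7.h770.UB.k_int (j := jk k) ?_ ?_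
    · rw [hjk, WeierstrassCurve.map_j]
      exact map_isIntegral_int _ hj
    · unfold jk
      rw [div_mul_cancel₀]
      exact mul_ne_zero (pow_ne_zero 2 h0) (sub_ne_zero.2 h4)
  · have h16 : (16 : AlgebraicClosure K) ≠ 0 := by norm_num
    have h0 : k ≠ 0 := by
      rintro rfl
      have : (16 : AlgebraicClosure K) ^ 3 = 0 := by linear_combination hk
      exact pow_ne_zero 3 h16 this
    have h4 : k ^ 2 ≠ 16 := by
      intro h
      have h3 : k ^ 4 = 256 := by
        have : k ^ 4 = (k ^ 2) ^ 2 := by ring
        rw [this, h]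
        norm_num
      rw [h3, h] at hk
      have : (16 : AlgebraicClosure K) ^ 3 = 0 := by linear_combination hk
      exact pow_ne_zero 3 h16 this
    have hjk : jk k = (E.map (algebraMap K (AlgebraicClosure K))).j := by
      rw [WeierstrassCurve.map_j]
      unfold jk
      rw [div_eq_iff (mul_ne_zero (pow_ne_zero 2 h0) (sub_ne_zero.2 h4)), hk]
    have _ := isElliptic_crv h0 h4
    obtain ⟨C, hC⟩ := exists_variableChange_of_j_eq (E.map (algebraMap K (AlgebraicClosure K)))
      (crv k) (by rw [j_crv, hjk])
    exact key h0 h4 hi C hC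

end Pool.Agent.Results.MP_0a9c3b_nt.FreeGaloisModules
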