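import Pool.Agent.Run7.h770.UB.Main
set_option autoImplicit false

/-!
Beilinson's conjecture on regulators for `K_2` of elliptic curves (`d = 2`, `i = 1`): the integral
part of `K_2 ⊗ ℚ` of an elliptic curve with integral `j`-invariant over a number field has
unbounded rank over the finite extensions of the ground field.
-/

namespace Pool.Agent.Results.MP_a09a03_nt.UnboundedRank

open WeierstrassCurve

open Pool.Agent.Run7.h770.IJ (crv jk j_crv isElliptic_crv)

open Pool.Agent.W367.KT (IndepClasses)

/-- Let `E` be an elliptic curve over a number field `K`. Suppose that its `j`-invariant is an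
algebraic integer, or, more generally, that `E` has an integral parameter `k`: an algebraic integer
`k` with `(k⁴ - 16 k² + 16)³ = j k² (k² - 16)`, that is, such that `E` is over an algebraic closure
isomorphic to the (smooth) curve `x + 1/x + y + 1/y = k`. Then for every `r` there is a finite
extension `L` of `K` with `IndepClasses (L (E)) r`: there are `r` elements of `K_2 (L (E)) ⊗ ℚ`
whose tame symbols at all discrete valuations of the function field `L (E)` vanish (so they belong
to the integral part of `K_2` of the curve `E` over `L`), linearly independent over `ℚ`, and `r`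
closed paths of complex points of `E` such that the matrix of the regulator integrals is
invertible. -/
theorem result (K : Type*) [Field K] [NumberField K] (E : WeierstrassCurve K) [E.IsElliptic]
    (h : IsIntegral ℤ E.j ∨ ∃ k : AlgebraicClosure K, IsIntegral ℤ k ∧
      (k ^ 4 - 16 * k ^ 2 + 16) ^ 3 =
        algebraMap K (AlgebraicClosure K) E.j * (k ^ 2 * (k ^ 2 - 16)))
    (r : ℕ) :
    ∃ (L : IntermediateField K (AlgebraicClosure K)) (_ : NumberField L),
      IndepClasses (E.map (algebraMap K L)).toAffine.FunctionField r := by
  rcases h with hj | ⟨k, hi, hk⟩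
  · exact Pool.Agent.Run7.h770.UB.main K E hj r
  · have h16 : (16 : AlgebraicClosure K) ≠ 0 := by norm_num
    have h0 : k ≠ 0 := by
      rintro rfl
      have : (16 : AlgebraicClosure K) ^ 3 = 0 := by linear_combination hk
      exact pow_ne_zero 3 h16 this
    have h4 : k ^ 2 ≠ 16 := by
      intro h
      have h3 : k ^ 4 = 256 := by
        have : k ^ 4 = (k ^ 2) ^ 2 := by ring
        rw [this, h]
        norm_num
      rw [h3, h] at hk
      have : (16 : AlgebraicClosure K) ^ 3 = 0 := by linear_combination hk
      exact pow_ne_zero 3 h16 this
    have hjk : jk k = (E.map (algebraMap K (AlgebraicClosure K))).j := by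
      rw [WeierstrassCurve.map_j]
      unfold jk
      rw [div_eq_iff (mul_ne_zero (pow_ne_zero 2 h0) (sub_ne_zero.2 h4)), hk]
    have _ := isElliptic_crv h0 h4
    obtain ⟨C, hC⟩ := exists_variableChange_of_j_eq (E.map (algebraMap K (AlgebraicClosure K)))
      (crv k) (by rw [j_crv, hjk])
    exact Pool.Agent.Run7.h770.UB.main_aux E h0 h4 hi C hC r

end Pool.Agent.Results.MP_a09a03_nt.UnboundedRank
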